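import Mathlib

/-!
# The second Grzegorczyk class is a basis for punctual standardness
-/

open List.Vector

namespace H313GZ

/-- The second Grzegorczyk class `ℰ²`: the smallest class of functions of finitely many variables
on the natural numbers which contains zero, successor, the projections, addition and
multiplication, and is closed under composition and bounded primitive recursion. -/
inductive E2 : ∀ {n : ℕ}, (List.Vector ℕ n → ℕ) → Prop
  | zero : @E2 0 fun _ => 0
  | succ : @E2 1 fun v => v.head + 1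
  | get {n} (i : Fin n) : E2 fun v => v.get i
  | add : @E2 2 fun v => v.head + v.tail.head
  | mul : @E2 2 fun v => v.head * v.tail.head
  | comp {m n} {f : List.Vector ℕ n → ℕ} (g : Fin n → List.Vector ℕ m → ℕ) :
      E2 f → (∀ i, E2 (g i)) → E2 fun a => f (List.Vector.ofFn fun i => g i a)
  | brec {n} {f : List.Vector ℕ n → ℕ} {g : List.Vector ℕ (n + 2) → ℕ}
      {b : List.Vector ℕ (n + 1) → ℕ} :
      E2 f → E2 g → E2 b →
      (∀ v : List.Vector ℕ (n + 1),
        (v.head.rec (f v.tail) fun y IH => g (y ::ᵥ IH ::ᵥ v.tail) : ℕ) ≤ b v) →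
      E2 fun v : List.Vector ℕ (n + 1) =>
        v.head.rec (f v.tail) fun y IH => g (y ::ᵥ IH ::ᵥ v.tail)

namespace E2

theorem of_eq {n} {f g : List.Vector ℕ n → ℕ} (hf : E2 f) (H : ∀ i, f i = g i) : E2 g :=
  (funext H : f = g) ▸ hf

theorem const {n} : ∀ m, @E2 n fun _ => m
  | 0 => (E2.zero.comp Fin.elim0 fun i => i.elim0 : @E2 n fun _ => 0)
  | m + 1 => E2.succ.comp (fun _ _ => m) fun _ => const m

theorem head {n : ℕ} : @E2 n.succ List.Vector.head :=
  (get 0).of_eq fun v => by simp [get_zero]

set_option backward.isDefEq.respectTransparency false in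
theorem tail {n} {f : List.Vector ℕ n → ℕ} (hf : @E2 n f) : @E2 n.succ fun v => f v.tail :=
  (hf.comp _ fun i => @get _ i.succ).of_eq fun v => by
    rw [← ofFn_get v.tail]; congr; funext i; simp

/-- A function from vectors to vectors all of whose coordinates are in the class. -/
def Vec {n m} (f : List.Vector ℕ n → List.Vector ℕ m) : Prop :=
  ∀ i, E2 fun v => (f v).get i

protected theorem nil {n} : @Vec n 0 fun _ => nil := fun i => i.elim0

protected theorem cons {n m f g} (hf : @E2 n f) (hg : @Vec n m g) :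
    Vec fun v => f v ::ᵥ g v := fun i => Fin.cases (by simp [*]) (fun i => by simp [hg i]) i

theorem idv {n} : @Vec n n id := get

theorem comp' {n m f g} (hf : @E2 m f) (hg : @Vec n m g) : E2 fun v => f (g v) :=
  (hf.comp _ hg).of_eq fun v => by simp

theorem comp₁ (f : ℕ → ℕ) (hf : @E2 1 fun v => f v.head) {n g} (hg : @E2 n g) :
    E2 fun v => f (g v) :=
  hf.comp _ fun _ => hg

theorem comp₂ (f : ℕ → ℕ → ℕ) (hf : @E2 2 fun v => f v.head v.tail.head) {n g h}
    (hg : @E2 n g) (hh : @E2 n h) : E2 fun v => f (g v) (h v) := by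
  simpa using hf.comp' (hg.cons <| hh.cons E2.nil)

theorem comp₃ (f : ℕ → ℕ → ℕ → ℕ) (hf : @E2 3 fun v => f v.head v.tail.head v.tail.tail.head)
    {n g h k} (hg : @E2 n g) (hh : @E2 n h) (hk : @E2 n k) : E2 fun v => f (g v) (h v) (k v) := by
  simpa using hf.comp' (hg.cons <| hh.cons <| hk.cons E2.nil)

/-- Bounded recursion, in a convenient form. -/
theorem brec' {n} {f g : List.Vector ℕ n → ℕ} {h : List.Vector ℕ (n + 2) → ℕ}
    {b : List.Vector ℕ (n + 1) → ℕ} (hf : @E2 n f) (hg : @E2 n g) (hh : @E2 (n + 2) h)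
    (hb : @E2 (n + 1) b)
    (H : ∀ (y : ℕ) (v : List.Vector ℕ n),
      (y.rec (g v) fun y IH => h (y ::ᵥ IH ::ᵥ v) : ℕ) ≤ b (y ::ᵥ v)) :
    @E2 n fun v => (f v).rec (g v) fun y IH : ℕ => h (y ::ᵥ IH ::ᵥ v) := by
  have key := brec hg hh hb (fun v => by
    have := H v.head v.tail
    simpa using this)
  simpa using comp' key (hf.cons idv)

theorem pred : @E2 1 fun v => v.head.pred :=
  (brec' (b := List.Vector.head) head (const 0) head head (fun y v => by
    cases y <;> simp)).of_eq fun v => by simp; cases v.head <;> rfl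

theorem sub' : @E2 2 fun v => v.tail.head - v.head := by
  have h : @E2 2 fun v => (v.head.rec (v.tail.head) fun y IH =>
      (fun w : List.Vector ℕ 3 => (w.tail.head).pred) (y ::ᵥ IH ::ᵥ v.tail) : ℕ) := by
    refine brec (f := List.Vector.head) (b := fun v => v.tail.head) head
      (pred.comp₁ _ (tail head)) (tail head) ?_
    intro v
    simp only [tail_cons, head_cons]
    generalize v.tail.head = a
    induction v.head with
    | zero => exact le_rfl
    | succ k ih => exact le_trans (Nat.pred_le _) ih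
  refine h.of_eq fun v => ?_
  simp only [tail_cons, head_cons]
  induction v.head with
  | zero => rfl
  | succ k ih => simp only [ih]; rw [Nat.sub_add_eq, Nat.pred_eq_sub_one]

theorem sub : @E2 2 fun v => v.head - v.tail.head := by
  simpa using comp₂ (fun a b => b - a) sub' (tail head) head

theorem if_lt {n a b f g} (ha : @E2 n a) (hb : @E2 n b) (hf : @E2 n f)
    (hg : @E2 n g) : @E2 n fun v => if a v < b v then f v else g v := by
  refine (brec' (f := fun v => b v - a v) (g := g) (h := fun w => f w.tail.tail)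
    (b := fun w => f w.tail + g w.tail) (sub.comp₂ _ hb ha) hg (tail <| tail hf)
    (add.comp₂ _ (tail hf) (tail hg)) ?_).of_eq fun v => ?_
  · intro y v
    cases y <;> simp
  · cases e : b v - a v
    · simp [not_lt.2 (Nat.sub_eq_zero_iff_le.mp e)]
    · simp [Nat.lt_of_sub_eq_succ e]

theorem if_eq {n a b f g} (ha : @E2 n a) (hb : @E2 n b) (hf : @E2 n f)
    (hg : @E2 n g) : @E2 n fun v => if a v = b v then f v else g v := by
  refine (if_lt ha hb hg (if_lt hb ha hg hf)).of_eq fun v => ?_
  split_ifs <;> first | rfl | omega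

theorem natPair : @E2 2 fun v => v.head.pair v.tail.head :=
  if_lt head (tail head) (add.comp₂ _ (tail <| mul.comp₂ _ head head) head)
    (add.comp₂ _ (add.comp₂ _ (mul.comp₂ _ head head) head) (tail head))

theorem sqrt : @E2 1 fun v => v.head.sqrt := by
  have H : ∀ n : ℕ, n.sqrt =
      n.rec 0 fun x y => if x.succ < y.succ * y.succ then y else y.succ := by
    introv; symm
    induction n with
    | zero => simp
    | succ n IH =>
      dsimp; rw [IH]; split_ifs with h
      · exact le_antisymm (Nat.sqrt_le_sqrt (Nat.le_succ _)) (Nat.lt_succ_iff.1 <| Nat.sqrt_lt.2 h)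
      · exact Nat.eq_sqrt.2
          ⟨not_lt.1 h, Nat.sqrt_lt.1 <| Nat.lt_succ_iff.2 <| Nat.sqrt_succ_le_succ_sqrt _⟩
  have := @brec' 1 List.Vector.head (fun _ => 0)
    (fun v => if v.head.succ < v.tail.head.succ * v.tail.head.succ then v.tail.head
      else v.tail.head.succ) List.Vector.head head (const 0) ?_ head ?_
  · exact this.of_eq fun v => (H v.head).symm
  · have x1 : @E2 3 fun v => v.head.succ := succ.comp₁ _ head
    have y1 : @E2 3 fun v => v.tail.head.succ := succ.comp₁ _ (tail head)
    exact if_lt x1 (mul.comp₂ _ y1 y1) (tail head) y1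
  · intro y v
    have : y.sqrt ≤ y := Nat.sqrt_le_self y
    rw [H y] at this
    exact this

theorem unpair₁ {n f} (hf : @E2 n f) : @E2 n fun v => (f v).unpair.1 := by
  have s := sqrt.comp₁ _ hf
  have fss := sub.comp₂ _ hf (mul.comp₂ _ s s)
  refine (if_lt fss s fss s).of_eq fun v => ?_
  simp [Nat.unpair]; split_ifs <;> rfl

theorem unpair₂ {n f} (hf : @E2 n f) : @E2 n fun v => (f v).unpair.2 := by
  have s := sqrt.comp₁ _ hf
  have fss := sub.comp₂ _ hf (mul.comp₂ _ s s)
  refine (if_lt fss s s (sub.comp₂ _ fss s)).of_eq fun v => ?_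
  simp [Nat.unpair]; split_ifs <;> rfl

theorem pr {n f g} (hf : @E2 n f) (hg : @E2 n g) : @E2 n fun v => Nat.pair (f v) (g v) :=
  natPair.comp₂ _ hf hg

theorem sc {n f} (hf : @E2 n f) : @E2 n fun v => f v + 1 := succ.comp₁ _ hf

theorem toPrimrec' {n} {f : List.Vector ℕ n → ℕ} (hf : E2 f) : Nat.Primrec' f := by
  induction hf with
  | zero => exact Nat.Primrec'.zero
  | succ => exact Nat.Primrec'.succ
  | get i => exact Nat.Primrec'.get i
  | add => exact Nat.Primrec'.add
  | mul => exact Nat.Primrec'.mul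
  | comp g _ _ h1 h2 => exact h1.comp g h2
  | brec _ _ _ _ h1 h2 _ => exact h1.prec h2

end E2

/-! ### The machine -/

/-- Put an instruction on a stack. -/
def push (c K : ℕ) : ℕ := Nat.pair c K + 1

theorem E2.ps {n f g} (hf : @E2 n f) (hg : @E2 n g) : @E2 n fun v => push (f v) (g v) :=
  (hf.pr hg).sc

/-- The action of the machine, given the tag `t` and the data `d` of the top instruction, the
rest `K` of the stack and the current value `n`. -/
def act (t d K n : ℕ) : ℕ :=
  if t = 0 then Nat.pair K 0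
  else if t = 1 then Nat.pair K (n + 1)
  else if t = 2 then Nat.pair K n.unpair.1
  else if t = 3 then Nat.pair K n.unpair.2
  else if t = 4 then Nat.pair (push d.unpair.2 (push d.unpair.1 K)) n
  else if t = 5 then
    Nat.pair (push d.unpair.1 (push (Nat.pair 7 (Nat.pair d.unpair.2 n)) K)) n
  else if t = 6 then
    Nat.pair (push d.unpair.1 (push (Nat.pair 9 (Nat.pair d.unpair.2
      (Nat.pair n.unpair.1 (Nat.pair 0 n.unpair.2)))) K)) n.unpair.1
  else if t = 7 then
    Nat.pair (push d.unpair.1 (push (Nat.pair 8 n) K)) d.unpair.2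
  else if t = 8 then Nat.pair K (Nat.pair d n)
  else if d.unpair.2.unpair.2.unpair.1 = d.unpair.2.unpair.2.unpair.2 then Nat.pair K n
  else
    Nat.pair (push d.unpair.1 (push (Nat.pair 9 (Nat.pair d.unpair.1
      (Nat.pair d.unpair.2.unpair.1 (Nat.pair (d.unpair.2.unpair.2.unpair.1 + 1)
        d.unpair.2.unpair.2.unpair.2)))) K))
      (Nat.pair d.unpair.2.unpair.1 (Nat.pair d.unpair.2.unpair.2.unpair.1 n))

/-- One step of the machine; a configuration codes a stack and a value. -/
def stp (x : ℕ) : ℕ :=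
  if x.unpair.1 = 0 then x
  else act (x.unpair.1.pred).unpair.1.unpair.1 (x.unpair.1.pred).unpair.1.unpair.2
    (x.unpair.1.pred).unpair.2 x.unpair.2

theorem act_E2 {n} {t d K m : List.Vector ℕ n → ℕ} (ht : E2 t) (hd : E2 d) (hK : E2 K)
    (hm : E2 m) : E2 fun v => act (t v) (d v) (K v) (m v) := by
  unfold act
  repeat' (first
    | (with_reducible assumption)
    | (with_reducible exact E2.const _)
    | (with_reducible apply E2.if_eq)
    | (with_reducible apply E2.pr)
    | (with_reducible apply E2.ps)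
    | (with_reducible apply E2.unpair₁)
    | (with_reducible apply E2.unpair₂)
    | (with_reducible apply E2.sc))

theorem stp_E2 {n} {f : List.Vector ℕ n → ℕ} (hf : E2 f) : E2 fun v => stp (f v) := by
  have h1 : E2 fun v => (f v).unpair.1.pred := E2.pred.comp₁ Nat.pred hf.unpair₁
  have h2 := act_E2 (h1.unpair₁.unpair₁) (h1.unpair₁.unpair₂) (h1.unpair₂) (hf.unpair₂)
  exact E2.if_eq hf.unpair₁ (E2.const 0) hf h2

/-- The run of the machine with all configurations above `v` replaced by `0`. -/
def runB (v x t : ℕ) : ℕ := t.rec x fun _ y => if v < stp y then 0 else stp y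

theorem runB_le (v x t : ℕ) : runB v x t ≤ x + v := by
  cases t with
  | zero => simp [runB]
  | succ t =>
    simp only [runB]
    split_ifs with h
    · omega
    · omega

theorem runB_E2 {n} {v x t : List.Vector ℕ n → ℕ} (hv : E2 v) (hx : E2 x) (ht : E2 t) :
    E2 fun w => runB (v w) (x w) (t w) := by
  have h : @E2 3 fun w => runB w.head w.tail.head w.tail.tail.head := by
    refine (E2.brec' (n := 3) (f := fun w => w.tail.tail.head) (g := fun w => w.tail.head)
      (h := fun u => if u.tail.tail.head < stp u.tail.head then 0 else stp u.tail.head)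
      (b := fun u => u.tail.tail.head + u.tail.head) ?_ ?_ ?_ ?_ ?_).of_eq fun w => ?_
    · exact E2.tail (E2.tail E2.head)
    · exact E2.tail E2.head
    · exact E2.if_lt (E2.tail (E2.tail E2.head)) (stp_E2 (E2.tail E2.head)) (E2.const 0)
        (stp_E2 (E2.tail E2.head))
    · exact E2.add.comp₂ _ (E2.tail (E2.tail E2.head)) (E2.tail E2.head)
    · intro y w
      have := runB_le w.head w.tail.head y
      simpa [runB] using this
    · simp [runB]
  exact E2.comp₃ _ h hv hx ht

/-- The universal function: `U v i` is `1` if the machine, started with the code `i.unpair.1`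
on the input `i`, halts with output `1` within `v` steps and with configurations at most `v`,
and `0` otherwise. -/
def U (v i : ℕ) : ℕ :=
  if runB v (Nat.pair (push i.unpair.1 0) i) v = Nat.pair 0 1 then 1 else 0

theorem U_E2 : @E2 2 fun w => U w.head w.tail.head := by
  have h1 : @E2 2 fun w => w.tail.head := E2.tail E2.head
  have h0 : @E2 2 fun w => w.head := E2.head
  unfold U
  refine E2.if_eq (runB_E2 h0 ?_ h0) (E2.const _) (E2.const _) (E2.const _)
  repeat' (first
    | (with_reducible assumption)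
    | (with_reducible exact E2.const _)
    | (with_reducible apply E2.if_eq)
    | (with_reducible apply E2.pr)
    | (with_reducible apply E2.ps)
    | (with_reducible apply E2.unpair₁)
    | (with_reducible apply E2.unpair₂)
    | (with_reducible apply E2.sc))

/-! ### The simulation -/

/-- The machine passes from `x` to `y`; the number of steps and all configurations on the way are
at most `b`. -/
def R (x y b : ℕ) : Prop := ∃ s ≤ b, stp^[s] x = y ∧ ∀ t ≤ s, stp^[t] x ≤ b

theorem R.refl (x : ℕ) : R x x x :=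
  ⟨0, Nat.zero_le _, rfl, fun t ht => by
    obtain rfl : t = 0 := by omega
    exact le_rfl⟩

theorem R.one (x : ℕ) : R x (stp x) (x + stp x + 1) :=
  ⟨1, by omega, rfl, fun t ht => by
    have : t = 0 ∨ t = 1 := by omega
    rcases this with rfl | rfl
    · simp only [Function.iterate_zero, id]; omega
    · simp only [Function.iterate_one]; omega⟩

theorem R.one' {x y : ℕ} (h : stp x = y) : R x y (x + y + 1) := h ▸ R.one x

theorem R.trans {x y z b c : ℕ} (h1 : R x y b) (h2 : R y z c) : R x z (b + c) := by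
  obtain ⟨s, hs, hsy, hsb⟩ := h1
  obtain ⟨s', hs', hsy', hsb'⟩ := h2
  refine ⟨s' + s, by omega, by rw [Function.iterate_add_apply, hsy, hsy'], fun t ht => ?_⟩
  by_cases h : t ≤ s
  · have := hsb t h; omega
  · have h3 := hsb' (t - s) (by omega)
    rw [← hsy, ← Function.iterate_add_apply, show t - s + s = t by omega] at h3
    omega

theorem stp_push (c K n : ℕ) :
    stp (Nat.pair (push c K) n) = act c.unpair.1 c.unpair.2 K n := by
  simp [stp, push]

section prim
variable {α : Type*} [Primcodable α] {f g : α → ℕ}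

theorem pAdd (hf : Primrec f) (hg : Primrec g) : Primrec fun a => f a + g a :=
  Primrec.nat_add.comp hf hg

theorem pPair (hf : Primrec f) (hg : Primrec g) : Primrec fun a => Nat.pair (f a) (g a) :=
  Primrec₂.natPair.comp hf hg

theorem pPush (hf : Primrec f) (hg : Primrec g) : Primrec fun a => push (f a) (g a) :=
  Primrec.succ.comp (pPair hf hg)

theorem pL (hf : Primrec f) : Primrec fun a => (f a).unpair.1 :=
  Primrec.fst.comp (Primrec.unpair.comp hf)

theorem pR (hf : Primrec f) : Primrec fun a => (f a).unpair.2 :=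
  Primrec.snd.comp (Primrec.unpair.comp hf)

end prim

/-- The configuration of the loop which evaluates a recursion. -/
def Lc (c K z k y v : ℕ) : ℕ :=
  Nat.pair (push (Nat.pair 9 (Nat.pair c (Nat.pair z (Nat.pair y k)))) K) v

/-- The configuration after one step from `Lc`. -/
def Mc (c K z k y v : ℕ) : ℕ :=
  Nat.pair (push c (push (Nat.pair 9 (Nat.pair c (Nat.pair z (Nat.pair (y + 1) k)))) K))
    (Nat.pair z (Nat.pair y v))

theorem Lc_end (c K z k v : ℕ) : stp (Lc c K z k k v) = Nat.pair K v := by
  rw [Lc, stp_push]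
  simp [act]

theorem Lc_step (c K z k y v : ℕ) (h : y ≠ k) : stp (Lc c K z k y v) = Mc c K z k y v := by
  rw [Lc, stp_push]
  simp [act, Mc, h]

theorem pLc {α : Type*} [Primcodable α] (c : ℕ) {K z k y v : α → ℕ} (hK : Primrec K)
    (hz : Primrec z) (hk : Primrec k) (hy : Primrec y) (hv : Primrec v) :
    Primrec fun a => Lc c (K a) (z a) (k a) (y a) (v a) :=
  pPair (pPush (pPair (Primrec.const 9) (pPair (Primrec.const c) (pPair hz (pPair hy hk)))) hK) hv

theorem pMc {α : Type*} [Primcodable α] (c : ℕ) {K z k y v : α → ℕ} (hK : Primrec K)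
    (hz : Primrec z) (hk : Primrec k) (hy : Primrec y) (hv : Primrec v) :
    Primrec fun a => Mc c (K a) (z a) (k a) (y a) (v a) :=
  pPair (pPush (Primrec.const c) (pPush (pPair (Primrec.const 9) (pPair (Primrec.const c)
    (pPair hz (pPair (Primrec.succ.comp hy) hk)))) hK)) (pPair hz (pPair hy hv))

theorem pSum {co : ℕ → ℕ → ℕ → ℕ} (h : Primrec fun p : (ℕ × ℕ) × ℕ => co p.1.1 p.1.2 p.2) :
    Primrec fun p : ℕ × ℕ => (p.2.unpair.2.rec 0 fun j acc => acc + co p.1 p.2 j : ℕ) := by
  refine Primrec.nat_rec' (h := fun (p : ℕ × ℕ) (q : ℕ × ℕ) => q.2 + co p.1 p.2 q.1)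
    (pR Primrec.snd) (Primrec.const 0) ?_
  have b1 : Primrec fun p : (ℕ × ℕ) × (ℕ × ℕ) => p.2.2 := Primrec.snd.comp Primrec.snd
  have b2 : Primrec fun p : (ℕ × ℕ) × (ℕ × ℕ) => co p.1.1 p.1.2 p.2.1 :=
    h.comp (Primrec.fst.pair (Primrec.fst.comp Primrec.snd))
  exact pAdd b1 b2

/-- Every primitive recursive function is computed by the machine, with a primitive recursive
bound. -/
theorem sim {f : ℕ → ℕ} (hf : Nat.Primrec f) : ∃ (c : ℕ) (B : ℕ → ℕ → ℕ), Primrec₂ B ∧
    ∀ K n, R (Nat.pair (push c K) n) (Nat.pair K (f n)) (B K n) := by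
  induction hf with
  | zero =>
    refine ⟨Nat.pair 0 0, fun K n => Nat.pair (push (Nat.pair 0 0) K) n + Nat.pair K 0 + 1,
      ?_, fun K n => R.one' ?_⟩
    · exact pAdd (pAdd (pPair (pPush (Primrec.const _) Primrec.fst) Primrec.snd)
        (pPair Primrec.fst (Primrec.const 0))) (Primrec.const 1)
    · rw [stp_push]; simp [act]
  | succ =>
    refine ⟨Nat.pair 1 0, fun K n => Nat.pair (push (Nat.pair 1 0) K) n + Nat.pair K (n + 1) + 1,
      ?_, fun K n => R.one' ?_⟩
    · exact pAdd (pAdd (pPair (pPush (Primrec.const _) Primrec.fst) Primrec.snd)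
        (pPair Primrec.fst (Primrec.succ.comp Primrec.snd))) (Primrec.const 1)
    · rw [stp_push]; simp [act]
  | left =>
    refine ⟨Nat.pair 2 0, fun K n => Nat.pair (push (Nat.pair 2 0) K) n +
      Nat.pair K n.unpair.1 + 1, ?_, fun K n => R.one' ?_⟩
    · exact pAdd (pAdd (pPair (pPush (Primrec.const _) Primrec.fst) Primrec.snd)
        (pPair Primrec.fst (pL Primrec.snd))) (Primrec.const 1)
    · rw [stp_push]; simp [act]
  | right =>
    refine ⟨Nat.pair 3 0, fun K n => Nat.pair (push (Nat.pair 3 0) K) n +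
      Nat.pair K n.unpair.2 + 1, ?_, fun K n => R.one' ?_⟩
    · exact pAdd (pAdd (pPair (pPush (Primrec.const _) Primrec.fst) Primrec.snd)
        (pPair Primrec.fst (pR Primrec.snd))) (Primrec.const 1)
    · rw [stp_push]; simp [act]
  | @pair f g hf hg ihf ihg =>
    obtain ⟨cf, Bf, hBf, hf'⟩ := ihf
    obtain ⟨cg, Bg, hBg, hg'⟩ := ihg
    have pf : Primrec f := Primrec.nat_iff.2 hf
    have pg : Primrec g := Primrec.nat_iff.2 hg
    refine ⟨Nat.pair 5 (Nat.pair cf cg), fun K n =>
      (Nat.pair (push (Nat.pair 5 (Nat.pair cf cg)) K) n +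
        Nat.pair (push cf (push (Nat.pair 7 (Nat.pair cg n)) K)) n + 1) +
      (Bf (push (Nat.pair 7 (Nat.pair cg n)) K) n +
      ((Nat.pair (push (Nat.pair 7 (Nat.pair cg n)) K) (f n) +
        Nat.pair (push cg (push (Nat.pair 8 (f n)) K)) n + 1) +
      (Bg (push (Nat.pair 8 (f n)) K) n +
      (Nat.pair (push (Nat.pair 8 (f n)) K) (g n) + Nat.pair K (Nat.pair (f n) (g n)) + 1)))),
      ?_, fun K n => ?_⟩
    · have q7 : Primrec fun p : ℕ × ℕ => push (Nat.pair 7 (Nat.pair cg p.2)) p.1 :=
        pPush (pPair (Primrec.const 7) (pPair (Primrec.const cg) Primrec.snd)) Primrec.fst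
      have qf : Primrec fun p : ℕ × ℕ => f p.2 := pf.comp Primrec.snd
      have qg : Primrec fun p : ℕ × ℕ => g p.2 := pg.comp Primrec.snd
      have q8 : Primrec fun p : ℕ × ℕ => push (Nat.pair 8 (f p.2)) p.1 :=
        pPush (pPair (Primrec.const 8) qf) Primrec.fst
      refine pAdd (pAdd (pAdd (pPair (pPush (Primrec.const _) Primrec.fst) Primrec.snd)
        (pPair (pPush (Primrec.const _) q7) Primrec.snd)) (Primrec.const 1))
        (pAdd (hBf.comp q7 Primrec.snd) (pAdd (pAdd (pAdd (pPair q7 qf)
        (pPair (pPush (Primrec.const _) q8) Primrec.snd)) (Primrec.const 1))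
        (pAdd (hBg.comp q8 Primrec.snd) (pAdd (pAdd (pPair q8 qg)
        (pPair Primrec.fst (pPair qf qg))) (Primrec.const 1)))))
    · refine (R.one' ?_).trans ((hf' _ _).trans ((R.one' ?_).trans ((hg' _ _).trans
        (R.one' ?_))))
      · rw [stp_push]; simp [act]
      · rw [stp_push]; simp [act]
      · rw [stp_push]; simp [act]
  | @comp f g hf hg ihf ihg =>
    obtain ⟨cf, Bf, hBf, hf'⟩ := ihf
    obtain ⟨cg, Bg, hBg, hg'⟩ := ihg
    have pg : Primrec g := Primrec.nat_iff.2 hg
    refine ⟨Nat.pair 4 (Nat.pair cf cg), fun K n =>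
      (Nat.pair (push (Nat.pair 4 (Nat.pair cf cg)) K) n +
        Nat.pair (push cg (push cf K)) n + 1) + (Bg (push cf K) n + Bf K (g n)),
      ?_, fun K n => ?_⟩
    · have q : Primrec fun p : ℕ × ℕ => push cf p.1 := pPush (Primrec.const cf) Primrec.fst
      exact pAdd (pAdd (pAdd (pPair (pPush (Primrec.const _) Primrec.fst) Primrec.snd)
        (pPair (pPush (Primrec.const _) q) Primrec.snd)) (Primrec.const 1))
        (pAdd (hBg.comp q Primrec.snd) (hBf.comp Primrec.fst (pg.comp Primrec.snd)))
    · refine (R.one' ?_).trans ((hg' _ _).trans (hf' _ _))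
      rw [stp_push]; simp [act]
  | @prec f g hf hg ihf ihg =>
    obtain ⟨cf, Bf, hBf, hf'⟩ := ihf
    obtain ⟨cg, Bg, hBg, hg'⟩ := ihg
    have pf : Primrec f := Primrec.nat_iff.2 hf
    have pg : Primrec g := Primrec.nat_iff.2 hg
    set F : ℕ → ℕ → ℕ := fun z j => j.rec (f z) fun y IH => g (Nat.pair z (Nat.pair y IH)) with hF
    have pF : Primrec₂ F := by
      refine Primrec.nat_rec (g := fun z p => g (Nat.pair z (Nat.pair p.1 p.2))) pf ?_
      exact pg.comp (pPair Primrec.fst (pPair (Primrec.fst.comp Primrec.snd)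
        (Primrec.snd.comp Primrec.snd)))
    have hFs : ∀ z y, F z (y + 1) = g (Nat.pair z (Nat.pair y (F z y))) := fun _ _ => rfl
    -- the cost of the loop
    let co : ℕ → ℕ → ℕ → ℕ := fun K n y =>
      (Lc cg K n.unpair.1 n.unpair.2 y (F n.unpair.1 y) +
        Mc cg K n.unpair.1 n.unpair.2 y (F n.unpair.1 y) + 1) +
      Bg (push (Nat.pair 9 (Nat.pair cg (Nat.pair n.unpair.1
        (Nat.pair (y + 1) n.unpair.2)))) K) (Nat.pair n.unpair.1 (Nat.pair y (F n.unpair.1 y)))
    let W : ℕ → ℕ → ℕ → ℕ := fun K n y => y.rec 0 fun j acc => acc + co K n j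
    have hloop : ∀ K n y, y ≤ n.unpair.2 →
        R (Lc cg K n.unpair.1 n.unpair.2 0 (F n.unpair.1 0))
          (Lc cg K n.unpair.1 n.unpair.2 y (F n.unpair.1 y))
          (Lc cg K n.unpair.1 n.unpair.2 0 (F n.unpair.1 0) + W K n y) := by
      intro K n y
      induction y with
      | zero => intro _; simpa [W] using R.refl _
      | succ y ih =>
        intro hy
        have h1 := ih (by omega)
        have h2 := R.one' (Lc_step cg K n.unpair.1 n.unpair.2 y (F n.unpair.1 y) (by omega))
        have h3 := hg' (push (Nat.pair 9 (Nat.pair cg (Nat.pair n.unpair.1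
          (Nat.pair (y + 1) n.unpair.2)))) K) (Nat.pair n.unpair.1 (Nat.pair y (F n.unpair.1 y)))
        have h4 := h1.trans (h2.trans h3)
        have e1 : W K n (y + 1) = W K n y + co K n y := rfl
        rw [e1, ← add_assoc, hFs]
        exact h4
    have pco : Primrec fun p : (ℕ × ℕ) × ℕ => co p.1.1 p.1.2 p.2 := by
      have a1 : Primrec fun p : (ℕ × ℕ) × ℕ => p.1.1 := Primrec.fst.comp Primrec.fst
      have a2 : Primrec fun p : (ℕ × ℕ) × ℕ => p.1.2.unpair.1 :=
        pL (Primrec.snd.comp Primrec.fst)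
      have a3 : Primrec fun p : (ℕ × ℕ) × ℕ => p.1.2.unpair.2 :=
        pR (Primrec.snd.comp Primrec.fst)
      have a4 : Primrec fun p : (ℕ × ℕ) × ℕ => p.2 := Primrec.snd
      have a5 : Primrec fun p : (ℕ × ℕ) × ℕ => F p.1.2.unpair.1 p.2 := pF.comp a2 a4
      have b1 := pLc cg a1 a2 a3 a4 a5
      have b2 := pMc cg a1 a2 a3 a4 a5
      have b3 : Primrec fun p : (ℕ × ℕ) × ℕ => push (Nat.pair 9 (Nat.pair cg
          (Nat.pair p.1.2.unpair.1 (Nat.pair (p.2 + 1) p.1.2.unpair.2)))) p.1.1 :=
        pPush (pPair (Primrec.const 9) (pPair (Primrec.const cg) (pPair a2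
          (pPair (Primrec.succ.comp a4) a3)))) a1
      have b4 : Primrec fun p : (ℕ × ℕ) × ℕ => Nat.pair p.1.2.unpair.1
          (Nat.pair p.2 (F p.1.2.unpair.1 p.2)) := pPair a2 (pPair a4 a5)
      have b5 := hBg.comp b3 b4
      have b6 := pAdd (pAdd (pAdd b1 b2) (Primrec.const 1)) b5
      exact b6
    have pW : Primrec fun p : ℕ × ℕ => W p.1 p.2 p.2.unpair.2 := by
      exact pSum pco
    refine ⟨Nat.pair 6 (Nat.pair cf cg), fun K n =>
      (Nat.pair (push (Nat.pair 6 (Nat.pair cf cg)) K) n +
        Nat.pair (push cf (push (Nat.pair 9 (Nat.pair cg (Nat.pair n.unpair.1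
          (Nat.pair 0 n.unpair.2)))) K)) n.unpair.1 + 1) +
      (Bf (push (Nat.pair 9 (Nat.pair cg (Nat.pair n.unpair.1 (Nat.pair 0 n.unpair.2)))) K)
        n.unpair.1 +
      ((Lc cg K n.unpair.1 n.unpair.2 0 (F n.unpair.1 0) + W K n n.unpair.2) +
      (Lc cg K n.unpair.1 n.unpair.2 n.unpair.2 (F n.unpair.1 n.unpair.2) +
        Nat.pair K (F n.unpair.1 n.unpair.2) + 1))), ?_, fun K n => ?_⟩
    · have a1 : Primrec fun p : ℕ × ℕ => p.1 := Primrec.fst
      have a2 : Primrec fun p : ℕ × ℕ => p.2.unpair.1 := pL Primrec.snd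
      have a3 : Primrec fun p : ℕ × ℕ => p.2.unpair.2 := pR Primrec.snd
      have a4 : Primrec fun p : ℕ × ℕ => push (Nat.pair 9 (Nat.pair cg (Nat.pair p.2.unpair.1
          (Nat.pair 0 p.2.unpair.2)))) p.1 :=
        pPush (pPair (Primrec.const 9) (pPair (Primrec.const cg) (pPair a2
          (pPair (Primrec.const 0) a3)))) a1
      have a5 : Primrec fun p : ℕ × ℕ => F p.2.unpair.1 0 := pF.comp a2 (Primrec.const 0)
      have a6 : Primrec fun p : ℕ × ℕ => F p.2.unpair.1 p.2.unpair.2 := pF.comp a2 a3
      have b1 : Primrec fun p : ℕ × ℕ =>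
          Nat.pair (push (Nat.pair 6 (Nat.pair cf cg)) p.1) p.2 :=
        pPair (pPush (Primrec.const _) a1) Primrec.snd
      have b2 := pPair (pPush (Primrec.const cf) a4) a2
      have b3 := hBf.comp a4 a2
      have b4 := pLc cg a1 a2 a3 (Primrec.const 0) a5
      have b5 := pLc cg a1 a2 a3 a3 a6
      have b6 := pPair a1 a6
      have b7 := pAdd (pAdd (pAdd b1 b2) (Primrec.const 1)) (pAdd b3 (pAdd (pAdd b4 pW)
        (pAdd (pAdd b5 b6) (Primrec.const 1))))
      exact b7
    · have h5 : Nat.unpaired (fun z n => (Nat.rec (f z) fun y IH => g (Nat.pair z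
          (Nat.pair y IH)) : ℕ → ℕ) n) n = F n.unpair.1 n.unpair.2 := rfl
      refine (R.one' ?_).trans ((hf' _ _).trans ((hloop K n _ le_rfl).trans (R.one' ?_)))
      · rw [stp_push]; simp [act]
      · exact Lc_end _ _ _ _ _

/-- The bounded run agrees with the run. -/
theorem runB_eq {x y b v : ℕ} (h : R x y b) (hb : b ≤ v) (hy : stp y = y) : runB v x v = y := by
  obtain ⟨s, hs, hsy, hsb⟩ := h
  have hall : ∀ t, stp^[t] x ≤ v := by
    intro t
    by_cases ht : t ≤ s
    · exact (hsb t ht).trans hb
    · have : stp^[t] x = y := by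
        rw [show t = (t - s) + s by omega, Function.iterate_add_apply, hsy]
        exact Function.iterate_fixed hy _
      rw [this, ← hsy]
      exact (hsb s le_rfl).trans hb
  have heq : ∀ t, runB v x t = stp^[t] x := by
    intro t
    induction t with
    | zero => rfl
    | succ t ih =>
      have h1 := hall (t + 1)
      rw [Function.iterate_succ_apply'] at h1 ⊢
      change (if v < stp (runB v x t) then 0 else stp (runB v x t)) = _
      rw [ih, if_neg (by omega)]
  rw [heq, show v = (v - s) + s by omega, Function.iterate_add_apply, hsy]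
  exact Function.iterate_fixed hy _

/-! ### Punctual copies -/

/-- A punctual copy of `(ℕ, S)`: a primitive recursive function `S` on the natural numbers
together with the isomorphism from `(ℕ, successor)` onto `(ℕ, S)`. -/
structure PunctualCopy where
  /-- the successor function of the copy -/
  S : ℕ → ℕ
  prim : Nat.Primrec S
  /-- the isomorphism from the standard structure -/
  iso : ℕ ≃ ℕ
  iso_succ : ∀ n, iso (n + 1) = S (iso n)

/-- The function `f^𝒜` corresponding to `f` on the copy. -/
def PunctualCopy.transfer (A : PunctualCopy) {k : ℕ} (f : List.Vector ℕ k → ℕ) :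
    List.Vector ℕ k → ℕ :=
  fun a => A.iso (f (a.map A.iso.symm))

/-- `f` is primitive recursive on the copy. -/
def PunctualCopy.PrimrecOn (A : PunctualCopy) {k : ℕ} (f : List.Vector ℕ k → ℕ) : Prop :=
  Nat.Primrec' (A.transfer f)

/-- The functions which are primitive recursive on the copy are exactly the primitive recursive
functions. -/
def PunctualCopy.Standard (A : PunctualCopy) : Prop :=
  ∀ (k : ℕ) (f : List.Vector ℕ k → ℕ), A.PrimrecOn f ↔ Nat.Primrec' f

/-- A class of functions is a basis for punctual standardness. -/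
def IsBasis (F : ∀ k : ℕ, Set (List.Vector ℕ k → ℕ)) : Prop :=
  ∀ A : PunctualCopy, (∀ k, ∀ f ∈ F k, A.PrimrecOn f) → A.Standard

theorem iso_prim (A : PunctualCopy) : Primrec A.iso := by
  have h : Primrec fun n : ℕ => (Nat.rec (A.iso 0) (fun _ y => A.S y) n : ℕ) := by
    refine Primrec.nat_rec₁ (f := fun _ y => A.S y) (A.iso 0) ?_
    exact (Primrec.nat_iff.2 A.prim).comp Primrec.snd
  refine h.of_eq fun n => ?_
  induction n with
  | zero => rfl
  | succ n ih => simp only; rw [ih, A.iso_succ]

theorem symm_prim (A : PunctualCopy) (hU : A.PrimrecOn fun w : List.Vector ℕ 2 =>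
    U w.head w.tail.head) : Primrec A.iso.symm := by
  have hI := iso_prim A
  have hq : Primrec₂ fun a b : ℕ => A.iso (U (A.iso.symm a) (A.iso.symm b)) := by
    have h1 := Nat.Primrec'.prim_iff.1 hU
    have h2 : Primrec fun p : ℕ × ℕ => (p.1 ::ᵥ p.2 ::ᵥ List.Vector.nil : List.Vector ℕ 2) :=
      Primrec.vector_cons.comp Primrec.fst (Primrec.vector_cons.comp Primrec.snd
        (Primrec.const _))
    exact (h1.comp h2).of_eq fun p => by simp [PunctualCopy.transfer]
  set D : ℕ → ℕ := fun i =>
    if A.iso (U (A.iso.symm i.unpair.2) (A.iso.symm (A.iso i))) = A.iso 1 then 0 else 1 with hD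
  have pD : Primrec D := by
    refine Primrec.ite (Primrec.eq.comp ?_ (Primrec.const _)) (Primrec.const 0) (Primrec.const 1)
    exact hq.comp (pR Primrec.id) hI
  obtain ⟨c, B, hB, hc⟩ := sim (Primrec.nat_iff.1 pD)
  have hbound : ∀ a, A.iso.symm a < B 0 (Nat.pair c a) := by
    intro a
    by_contra hcon
    push Not at hcon
    have h1 := hc 0 (Nat.pair c a)
    have h2 : stp (Nat.pair 0 (D (Nat.pair c a))) = Nat.pair 0 (D (Nat.pair c a)) := by
      simp [stp]
    have h3 := runB_eq h1 hcon h2
    have h4 : U (A.iso.symm a) (Nat.pair c a) =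
        if Nat.pair 0 (D (Nat.pair c a)) = Nat.pair 0 1 then 1 else 0 := by
      unfold U
      rw [Nat.unpair_pair]
      simp only
      rw [h3]
    have h5 : D (Nat.pair c a) = if U (A.iso.symm a) (Nat.pair c a) = 1 then 0 else 1 := by
      simp only [hD, Nat.unpair_pair, Equiv.symm_apply_apply, EmbeddingLike.apply_eq_iff_eq]
    rw [h4] at h5
    by_cases h6 : D (Nat.pair c a) = 1
    · rw [h6] at h5; simp at h5
    · have h8 : ¬ (Nat.pair 0 (D (Nat.pair c a)) = Nat.pair 0 1) := by
        rw [Nat.pair_eq_pair]; simp [h6]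
      rw [if_neg h8] at h5
      simp at h5
      exact h6 h5
  have hfin : Primrec fun a : ℕ => (B 0 (Nat.pair c a)).findGreatest fun v => A.iso v = a := by
    refine Primrec.nat_findGreatest ?_ ?_
    · exact hB.comp (Primrec.const 0) (pPair (Primrec.const c) Primrec.id)
    · exact Primrec.eq.comp (hI.comp Primrec.snd) Primrec.fst
  refine hfin.of_eq fun a => ?_
  have h7 : A.iso ((B 0 (Nat.pair c a)).findGreatest fun v => A.iso v = a) = a :=
    Nat.findGreatest_spec (P := fun v => A.iso v = a) (hbound a).le (by simp)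
  exact (A.iso.symm_apply_eq.2 h7.symm).symm

end H313GZ

namespace Pool.Agent.Results.MP_9dcafa_lc.SecondClassIsBasis

open H313GZ

/-- If the single binary function `U` of the second Grzegorczyk class is primitive recursive on a
punctual copy, then the copy is punctually standard. -/
theorem single (A : PunctualCopy)
    (hA : A.PrimrecOn fun w : List.Vector ℕ 2 => U w.head w.tail.head) : A.Standard := by
  intro k f
  have hsymm : Primrec A.iso.symm := symm_prim A hA
  have hiso : Primrec A.iso := iso_prim A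
  have h1 : @Nat.Primrec' 1 fun v => A.iso v.head :=
    Nat.Primrec'.prim_iff.2 (hiso.comp Primrec.vector_head)
  have h2 : @Nat.Primrec' 1 fun v => A.iso.symm v.head :=
    Nat.Primrec'.prim_iff.2 (hsymm.comp Primrec.vector_head)
  constructor
  · intro hf
    have h3 := hf.comp (fun i v => A.iso (v.get i)) (fun i => h1.comp₁ _ (Nat.Primrec'.get i))
    refine (h2.comp₁ _ h3).of_eq fun v => ?_
    have h4 : (List.Vector.ofFn fun i => A.iso (v.get i)).map A.iso.symm = v := by
      ext i; simp
    simp [PunctualCopy.transfer, h4]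
  · intro hf
    have h3 := hf.comp (fun i v => A.iso.symm (v.get i))
      (fun i => h2.comp₁ _ (Nat.Primrec'.get i))
    refine (h1.comp₁ _ h3).of_eq fun v => ?_
    have h4 : (List.Vector.ofFn fun i => A.iso.symm (v.get i)) = v.map A.iso.symm := by
      ext i; simp
    simp [PunctualCopy.transfer, h4]

/-- The second Grzegorczyk class is a basis for punctual standardness.  In fact one binary
function of the class suffices. -/
theorem result : (IsBasis fun _ => {f | E2 f}) ∧
    ∃ u : List.Vector ℕ 2 → ℕ, E2 u ∧ ∀ A : PunctualCopy, A.PrimrecOn u → A.Standard :=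
  ⟨fun A hA => single A (hA 2 _ U_E2), _, U_E2, single⟩

end Pool.Agent.Results.MP_9dcafa_lc.SecondClassIsBasis
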